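import Pool.Agent.H743.X17.Fin
import Pool.Agent.H743.X17.Gold

/-!
# Goldfeld's conjecture for all the quadratic twists of the curve 17a2: more than two fifths of the
# twists with root number one, in every class given by local conditions

`E_e : y² = x³ - 7371 e² x - 240570 e³`, `e` any squarefree integer, is the quadratic twist by `e` of the
curve `17a2 : y² = x (x + 1) (x - 16)` of conductor `17`, which is isogenous to `X_0(17)`: no complex
multiplication, all the points of order two are rational, no rational cyclic isogeny of degree `4`.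

The theorem, for EVERY squarefree `e` (infinitely many curves, each with its own ordering of its twists):
* the natural density, among ALL squarefree integers `d`, positive or negative, ordered by `|d|`, of the `d`
  such that `E_e^d` has analytic rank `0`, only finitely many rational points and `Ш(E_e^d/ℚ)[2^∞] = 0`
  is EXACTLY `c / 2 = 0.2097...`, `c = (1 - 1/2) (1 - 1/8) (1 - 1/32) ⋯`; hence
  `liminf N_0(E_e, X) / S(X) ≥ c / 2`;
* exactly half of the `d` with `|d| < X` satisfy `RootOne e d` (the root number of `E_e^d` is `1`), and for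
  the other ones `L(E_e^d, 1) = 0`;
* local conditions: for every finite set `T` of primes (and the sign, if `inf`) and every class with a
  member `d₀` for which the root number is `1`, the density among the `d` in this class with root
  number `1` is EXACTLY `c = 0.4194...`.

The analytic rank is the order of vanishing at `s = 1` of the entire continuation of the Hasse-Weil
`L`-function of the global minimal equation (all Euler factors).

Proof.  `L(E^d, 1) = y² Ω Tam / 16` with `y` odd if and only if a symmetric matrix over `𝔽₂` is nonsingular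
(`Pool/Agent/H743/X17`, library run 63374d34); the density of this condition in the classes modulo `m`
(library: N916/MO, N919/BS, N855/GF); the complete 2-descent for all the twists (H743/X17).  New in
this file: the twists of a twist in the classes given by local conditions (`X17/TwL`).
-/

set_option autoImplicit false

open Filter Topology

namespace Pool.Agent.Results.MP_03e5d0_nt.EveryTwistOf17

open Pool.Agent.TH841.SH.D (Sha)

/-- `V` is a global minimal equation: `Δ ≠ 0` and `|Δ|` is minimal among the integral equations -/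
def IsMinimal (V : WeierstrassCurve ℤ) : Prop :=
  V.Δ ≠ 0 ∧ ∀ (V' : WeierstrassCurve ℤ) (C : WeierstrassCurve.VariableChange ℚ),
    C • (V.map (Int.castRingHom ℚ)) = V'.map (Int.castRingHom ℚ) → |V.Δ| ≤ |V'.Δ|

/-- `a_p = p - #{affine points modulo p}` -/
noncomputable def ap (V : WeierstrassCurve ℤ) (p : ℕ) : ℤ :=
  p - (Nat.card {P : ZMod p × ZMod p //
    (V.map (Int.castRingHom (ZMod p))).toAffine.Equation P.1 P.2} : ℕ)

/-- `Λ` is entire and for `Re s > 3/2` it is the Hasse-Weil L-function of the minimal equation `V`: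
the product over all primes `p` of `(1 - a_p p^{-s} + p^{1-2s})⁻¹`, without the last term if
`p ∣ Δ`. -/
def IsL (V : WeierstrassCurve ℤ) (Λ : ℂ → ℂ) : Prop :=
  Differentiable ℂ Λ ∧ ∀ s : ℂ, 3 / 2 < s.re →
    HasProd (fun p : Nat.Primes => (1 - (ap V p : ℂ) * ((p : ℕ) : ℂ) ^ (-s) +
      (if ((p : ℕ) : ℤ) ∣ V.Δ then 0 else ((p : ℕ) : ℂ) ^ (1 - 2 * s)))⁻¹) (Λ s)

/-- `Λ` is the entire continuation of the Hasse-Weil L-function of `W` -/
def IsLOf (W : WeierstrassCurve ℚ) (Λ : ℂ → ℂ) : Prop :=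
  ∃ (V : WeierstrassCurve ℤ) (C : WeierstrassCurve.VariableChange ℚ),
    IsMinimal V ∧ C • W = V.map (Int.castRingHom ℚ) ∧ IsL V Λ

/-- the analytic rank of `W` is `r`: the order of vanishing at `s = 1` of the entire continuation of
the L-function of a minimal equation of `W` -/
def AnalyticRank (W : WeierstrassCurve ℚ) (r : ℕ) : Prop :=
  ∃ Λ : ℂ → ℂ, IsLOf W Λ ∧ analyticOrderAt Λ 1 = r

/-- the twist `E^d : y² = x³ + a d² x + b d³` of `E : y² = x³ + a x + b` -/
def twist (a b : ℤ) (d : ℤ) : WeierstrassCurve ℚ :=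
  ⟨0, 0, 0, ((a * d ^ 2 : ℤ) : ℚ), ((b * d ^ 3 : ℤ) : ℚ)⟩

/-- the number of the squarefree integers `d` with `|d| < X` and the property `P` -/
noncomputable def count (P : ℤ → Prop) (X : ℝ) : ℕ :=
  {d : ℤ | Squarefree d ∧ |(d : ℝ)| < X ∧ P d}.ncard

/-- `S(X)`: the number of the squarefree integers `d` with `|d| < X` -/
noncomputable def S (X : ℝ) : ℕ := count (fun _ => True) X

/-- `N_r(E, X)` for `E : y² = x³ + a x + b` -/
noncomputable def N (a b : ℤ) (r : ℕ) (X : ℝ) : ℕ := count (fun d => AnalyticRank (twist a b d) r) X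

/-- the coefficients of `E_e : y² = x³ - 7371 e² x - 240570 e³`, the quadratic twist by `e` of `17a2` -/
def A (e : ℤ) : ℤ := -7371 * e ^ 2

/-- see `A` -/
def B (e : ℤ) : ℤ := -240570 * e ^ 3

/-- analytic rank `0`, only finitely many rational points, and `Ш[2^∞] = 0` -/
def Good (W : WeierstrassCurve ℚ) : Prop :=
  AnalyticRank W 0 ∧ Finite W.toAffine.Point ∧ ∀ (n : ℕ) (x : Sha W), 2 ^ n • x = 0 → x = 0

/-- the squarefree integer `m` in the class of `e d` modulo squares; `E_e^d ≅ E_m` -/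
def tw (e d : ℤ) : ℤ := e * d / (Int.gcd e d : ℤ) ^ 2

/-- the root number of `E_e^d` is `1` -/
def RootOne (e d : ℤ) : Prop :=
  (0 < tw e d ∧ jacobiSym (tw e d) 17 = 1) ∨ (tw e d < 0 ∧ jacobiSym (tw e d) 17 ≠ 1)

/-- `d` and `d₀` have the same class in `ℚ_p^×` modulo squares for `p ∈ T`, and the same sign if `inf` -/
def SameClass (inf : Prop) (T : Finset ℕ) (d₀ d : ℤ) : Prop :=
  (inf → 0 < d * d₀) ∧ ∀ (p : ℕ) [Fact p.Prime], p ∈ T → IsSquare ((d * d₀ : ℤ) : ℚ_[p])

/-- the constant `(1 - 1/2) (1 - 1/8) (1 - 1/32) ⋯ = 0.4194...` -/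
noncomputable def c : ℝ := ∏' i : ℕ, (1 - (1 / 2 : ℝ) ^ (2 * i + 1))

section proof

open Pool.Agent.H743.X17 (parts Parts Sys WM EM SH)

lemma coef {e d : ℤ} (he : Squarefree e) (hd : Squarefree d) : ∃ g : ℕ, g ≠ 0 ∧
    A e * d ^ 2 = -7371 * ((g : ℤ) ^ 2 * tw e d) ^ 2 ∧
    B e * d ^ 3 = -240570 * ((g : ℤ) ^ 2 * tw e d) ^ 3 := by
  obtain ⟨g, hg, h⟩ := Pool.Agent.H743.X17.tw_spec he hd
  have h' : e * d = (g : ℤ) ^ 2 * tw e d := h
  refine ⟨g, hg, ?_, ?_⟩
  · rw [← h']; unfold A; ring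
  · rw [← h']; unfold B; ring

lemma isL {e d : ℤ} (he : Squarefree e) (hd : Squarefree d) (h1 : tw e d ≠ 1) :
    ∃ (Λ : ℂ → ℂ) (y : ℕ), IsLOf (twist (A e) (B e) d) Λ ∧ (Odd y ↔ Sys (tw e d)) ∧
      (y ≠ 0 → Λ 1 ≠ 0) ∧ (¬ RootOne e d → Λ 1 = 0) := by
  have hm : Squarefree (tw e d) := Pool.Agent.N855.GF.Tw.tw_sqf he hd
  obtain ⟨g, hg, ha, hb⟩ := coef he hd
  obtain ⟨C, hC⟩ := Pool.Agent.H743.X17.change hg ha hb
  obtain ⟨hO, f, y, hf, hy, h0, hv⟩ := Pool.Agent.H743.X17.main parts hm h1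
  refine ⟨f, y, ⟨WM (tw e d), C, ?_, hC, hf⟩, ?_, fun hy0 => ?_, fun hR => ?_⟩
  · have h := parts.min (tw e d) hm
    exact h
  · rw [hy, Pool.Agent.H743.X17.finSha_iff parts hm]
  · rw [hv]
    have hT : (Pool.Agent.H743.X17.TamProd (WM (tw e d)) : ℝ) ≠ 0 := by
      rw [Pool.Agent.H743.X17.tamProd_eq parts hm]
      split_ifs <;> simp
    have hO' : Pool.Agent.Y700.Omega (WM (tw e d)) ≠ 0 := hO.ne'
    have hy' : (y : ℝ) ≠ 0 := by exact_mod_cast hy0
    rw [Complex.ofReal_ne_zero]
    positivity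
  · rw [hv, h0 hR]
    push_cast
    ring

lemma good_iff {e d : ℤ} (he : Squarefree e) (hd : Squarefree d) (h1 : tw e d ≠ 1) :
    Good (twist (A e) (B e) d) ↔ Sys (tw e d) := by
  have hm : Squarefree (tw e d) := Pool.Agent.N855.GF.Tw.tw_sqf he hd
  obtain ⟨g, hg, ha, hb⟩ := coef he hd
  have hfs := Pool.Agent.H743.X17.finSha_sh parts hm hg ha hb
  obtain ⟨Λ, y, h2, h3, h4, -⟩ := isL he hd h1
  constructor
  · rintro ⟨-, h5⟩
    exact hfs.1 h5
  · intro h5
    refine ⟨⟨Λ, h2, ?_⟩, hfs.2 h5⟩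
    have h6 : Λ 1 ≠ 0 := h4 (by
      rintro rfl
      exact absurd (h3.2 h5) (by decide))
    obtain ⟨V, C, hV, hC, hL⟩ := h2
    exact (hL.1.analyticAt 1).analyticOrderAt_eq_zero.2 h6

lemma tw_one {e d : ℤ} (he : Squarefree e) (hd : Squarefree d) (hde : d ≠ e) : tw e d ≠ 1 :=
  fun h => hde (Pool.Agent.H743.X17.tw_one he hd h)

lemma half (e : ℤ) (he : Squarefree e) (X : ℝ) : 2 * count (RootOne e) X = S X := by
  rcases le_or_gt X 0 with hX | hX
  · have h0 : ∀ P : ℤ → Prop, count P X = 0 := by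
      intro P
      unfold count
      have : {d : ℤ | Squarefree d ∧ |(d : ℝ)| < X ∧ P d} = ∅ := by
        rw [Set.eq_empty_iff_forall_notMem]
        rintro d ⟨-, h, -⟩
        have := abs_nonneg (d : ℝ)
        linarith
      rw [this, Set.ncard_empty]
    unfold S
    rw [h0, h0]
  · have h1 : count (RootOne e) X = Pool.Agent.H743.X17.num (RootOne e) (⌈X⌉₊ - 1) :=
      Pool.Agent.H743.X17.Nr_eq _ hX
    have h2 : S X = Pool.Agent.H743.X17.num (fun _ => True) (⌈X⌉₊ - 1) :=
      Pool.Agent.H743.X17.Nr_eq _ hX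
    rw [h1, h2]
    exact Pool.Agent.N855.GF.Tw.half_T he _

lemma dens_good {e : ℤ} (he : Squarefree e) : Tendsto (fun X : ℕ =>
    (Pool.Agent.H743.X17.num (fun d => Good (twist (A e) (B e) d)) X : ℝ) /
      (Pool.Agent.H743.X17.num (fun _ => True) X : ℝ)) atTop (𝓝 (c / 2)) := by
  have h := Pool.Agent.H743.X17.dens_tw (P := Sys) parts (fun _ _ _ => Iff.rfl) he
  have key : ∀ d, Squarefree d → d ≠ e → (Good (twist (A e) (B e) d) ↔ Sys (tw e d)) :=
    fun d hd hde => good_iff he hd (tw_one he hd hde)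
  exact Pool.Agent.N969.Den.lim_close h
    (Pool.Agent.H743.X17.close_e (e := e) fun d hd hde => (key d hd hde).symm)
    (Pool.Agent.H743.X17.close_e (e := e) key) Pool.Agent.N969.Den.NS_top

lemma dens_loc {e : ℤ} (he : Squarefree e) (inf : Prop) (T : Finset ℕ) (hT : ∀ p ∈ T, p.Prime)
    {d₀ : ℤ} (hd : Squarefree d₀) (h1 : RootOne e d₀) : Tendsto (fun X : ℕ =>
    (Pool.Agent.H743.X17.num (fun d => (RootOne e d ∧ SameClass inf T d₀ d) ∧
      Good (twist (A e) (B e) d)) X : ℝ) /
      (Pool.Agent.H743.X17.num (fun d => RootOne e d ∧ SameClass inf T d₀ d) X : ℝ)) atTop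
        (𝓝 c) := by
  have h := Pool.Agent.H743.X17.dens_twl (P := Sys) parts (fun _ _ _ => Iff.rfl) he inf T hT hd h1
  have htop := Pool.Agent.H743.X17.top_twl he inf T hT hd h1
  have key : ∀ d, Squarefree d → d ≠ e → (((RootOne e d ∧ SameClass inf T d₀ d) ∧
      Good (twist (A e) (B e) d)) ↔ ((RootOne e d ∧ SameClass inf T d₀ d) ∧ Sys (tw e d))) :=
    fun d hd hde => and_congr_right fun _ => good_iff he hd (tw_one he hd hde)
  exact Pool.Agent.N969.Den.lim_close h
    (Pool.Agent.H743.X17.close_e (e := e) fun d hd hde => (key d hd hde).symm)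
    (Pool.Agent.H743.X17.close_e (e := e) key) htop

end proof

theorem result :
    (∀ e : ℤ, Squarefree e →
      -- the density among all the twists
      Tendsto (fun X : ℝ => (count (fun d => Good (twist (A e) (B e) d)) X : ℝ) / S X) atTop
        (𝓝 (c / 2)) ∧
      c / 2 ≤ liminf (fun X : ℝ => (N (A e) (B e) 0 X : ℝ) / S X) atTop ∧
      -- the root number
      (∀ X : ℝ, 2 * count (RootOne e) X = S X) ∧
      (∀ d : ℤ, Squarefree d → ¬ RootOne e d →
        ∃ Λ : ℂ → ℂ, IsLOf (twist (A e) (B e) d) Λ ∧ Λ 1 = 0) ∧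
      -- the density in every class given by local conditions
      ∀ (inf : Prop) (T : Finset ℕ), (∀ p ∈ T, p.Prime) → ∀ d₀ : ℤ, Squarefree d₀ → RootOne e d₀ →
        Tendsto (fun X : ℝ => (count (fun d => (RootOne e d ∧ SameClass inf T d₀ d) ∧
          Good (twist (A e) (B e) d)) X : ℝ) /
            (count (fun d => RootOne e d ∧ SameClass inf T d₀ d) X : ℝ)) atTop (𝓝 c)) ∧
    0.4194 < c ∧ c < 0.4195 := by
  refine ⟨fun e he => ?_, Pool.Agent.H743.X17.c2_bounds⟩
  have h1 : Tendsto (fun X : ℝ => (count (fun d => Good (twist (A e) (B e) d)) X : ℝ) / S X) atTop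
        (𝓝 (c / 2)) := Pool.Agent.H743.X17.lim_Nr (dens_good he)
  refine ⟨h1, ?_, half e he, fun d hd hR => ?_, fun inf T hT d₀ hd hR => ?_⟩
  · exact Pool.Agent.H743.X17.liminf_Nr (P := fun d => Good (twist (A e) (B e) d))
      (Q := fun d => AnalyticRank (twist (A e) (B e) d) 0) (R := fun _ => True)
      (fun d _ h => h.1) (fun _ _ _ => trivial) h1
  · have h2 : tw e d ≠ 1 := by
      intro h3
      refine hR (Or.inl ?_)
      rw [h3]
      refine ⟨one_pos, ?_⟩
      simp
    obtain ⟨Λ, y, h3, -, -, h4⟩ := isL he hd h2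
    exact ⟨Λ, h3, h4 hR⟩
  · exact Pool.Agent.H743.X17.lim_Nr (dens_loc he inf T hT hd hR)

end Pool.Agent.Results.MP_03e5d0_nt.EveryTwistOf17
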