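import Pool.Agent.H468.G4.Cv
import Pool.Agent.H468.G4.Law
import Pool.Agent.H743.X17.Fin
import Pool.Agent.H114.X21.All
import Pool.Agent.H114.X21.P.SQD
import Pool.Graph.R_pool_sql_team_seeded_63374d34.N916.GB.Num

/-!
# Goldfeld's conjecture for simultaneous twists: the joint law of analytic rank zero for all the quadratic
# twists of the curves `17a2`, `X_0(15)`, `X_0(21)`, `X_0(24)`

`C_0 = 17a2 : y² = x³ - 7371 x - 240570` (conductor `17`, isogenous to `X_0(17)`),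
`C_1 = X_0(15) : y² = x³ - 12987 x - 263466`, `C_2 = X_0(21) : y² = x³ - 5211 x - 31050`,
`C_3 = X_0(24) : y² = x³ - 351 x + 1890`: no complex multiplication, four different isogeny classes.
`E_{j,e} : y² = x³ + A j e x + B j e` is the quadratic twist of `C_j` by the squarefree integer `e`; these are
the curves of the theorem, infinitely many for every `j`, each with its own family of twists `E_{j,e}^d`,
`d ∈ D(X)` (`d` squarefree, of either sign, `|d| < X`).  `Good W`: the analytic rank of `W` is `0`, `W(ℚ)` is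
finite and `Ш(W/ℚ)[2^∞] = 0`.  `tw e d`: the squarefree part of `e d`, so that `E_{j,e}^d` is isomorphic to the
twist of `C_j` by `tw e d`.  `Fam j`: for `j = 0` the twists with root number `1`, for `j = 1, 2, 3` explicit local
conditions at the places `∞, 2, 3, 5, 7`.

(1) **The joint law.**  Let `Class P d₀` be a class of the `d` given by finitely many places, among them
`∞, 2, 3, 5, 7, 17`.  Let `T` be a finite set of `e` with `tw e d₀` in `Fam 0`, and let `T'` be a finite set of `e` with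
`tw e d₀` in at least one of the `Fam j`, `j = 1, 2, 3`.  For all `U ⊆ T`, `U' ⊆ T'`: the proportion of the `d` in the
class such that `{e ∈ T : E_{0,e}^d is Good} = U`, and for all `e ∈ T'` and ALL those `j` the curve `E_{j,e}^d` is
Good if and only if `e ∈ U'`, is exactly `c^|U| (1 - c)^|T \ U| η^|U'| (1 - η)^|T' \ U'|`,
`c = (1 - 1/2) (1 - 1/8) (1 - 1/32) ⋯ = 0.4194...`, `η = (1 - 1/2) (1 - 1/4) (1 - 1/8) ⋯ = 0.2887...`; moreover this
pattern is independent (in total variation, for every `q`) of the vector `cls q d` of the numbers of the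
odd prime factors of `d` in the residue classes modulo `q`.
(2) Hence for every finite set of curves `E_{j,e}`, of several isogeny classes, for which one `d₀` satisfies all
the local conditions, the `d` such that ALL the `E_{j,e}^d` have analytic rank `0` have positive lower density
in `D(X)`.
(3) In particular `liminf N_0(E_{j,e}, X) / S(X) > 0` for EVERY `e` and `j`; for `X_0(21)` it is at least
`45 η / 256 > 0.0507`.
(4) **Infinite sets.**  For every infinite set `T` of squarefree `e` (for instance all the primes) and every `N`,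
for 100% of the `d`: if the root number of `E_{0,e}^d` is `1` for infinitely many `e ∈ T`, then at least `N` of
the curves `E_{0,e}^d`, `e ∈ T`, are Good, in particular have analytic rank `0`.

Proof.  The exact value `L(E^m, 1)` up to the square of an integer whose parity is decided by a matrix over
`𝔽₂`, and the complete 2-descent: conductor `17`: `Pool/Agent/H743/X17` (helper743), `X_0(15)`: `H464/XB`
(helper464), `X_0(21)`: `H114/X21` (helper114), `X_0(24)`: `H345/X24` (helper345) and libraries quoted there.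
The joint law of the matrices: `H743/JL` (helper743), its uniformity in the numbers of the prime factors:
`H468/WJ`.  New here (`H468/G4`): the analytic ranks of the short equations of all these curves, the classes
given by local conditions, the real variable `X`.
-/

set_option autoImplicit false

open Filter Topology

namespace Pool.Agent.Results.MP_03e5d0_nt.FourTwistClasses

open Pool.Agent.TH841.SH.D (Sha)

/-! ### the problem's definitions -/

/-- `V` is a global minimal equation: `Δ ≠ 0` and `|Δ|` is minimal among the integral equations -/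
def IsMinimal (V : WeierstrassCurve ℤ) : Prop :=
  V.Δ ≠ 0 ∧ ∀ (V' : WeierstrassCurve ℤ) (C : WeierstrassCurve.VariableChange ℚ),
    C • (V.map (Int.castRingHom ℚ)) = V'.map (Int.castRingHom ℚ) → |V.Δ| ≤ |V'.Δ|

/-- `a_p = p - #{affine points modulo p}` -/
noncomputable def ap (V : WeierstrassCurve ℤ) (p : ℕ) : ℤ :=
  p - (Nat.card {P : ZMod p × ZMod p //
    (V.map (Int.castRingHom (ZMod p))).toAffine.Equation P.1 P.2} : ℕ)

/-- `Λ` is entire and for `Re s > 3/2` it is the Hasse-Weil L-function of the minimal equation `V`: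
the product over all primes `p` of `(1 - a_p p^{-s} + p^{1-2s})⁻¹`, without the last term if
`p ∣ Δ`. -/
def IsL (V : WeierstrassCurve ℤ) (Λ : ℂ → ℂ) : Prop :=
  Differentiable ℂ Λ ∧ ∀ s : ℂ, 3 / 2 < s.re →
    HasProd (fun p : Nat.Primes => (1 - (ap V p : ℂ) * ((p : ℕ) : ℂ) ^ (-s) +
      (if ((p : ℕ) : ℤ) ∣ V.Δ then 0 else ((p : ℕ) : ℂ) ^ (1 - 2 * s)))⁻¹) (Λ s)

/-- the analytic rank of `W` is `r`: the order of vanishing at `s = 1` of the entire continuation of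
the L-function of a minimal equation of `W` -/
def AnalyticRank (W : WeierstrassCurve ℚ) (r : ℕ) : Prop :=
  ∃ (V : WeierstrassCurve ℤ) (C : WeierstrassCurve.VariableChange ℚ) (Λ : ℂ → ℂ),
    IsMinimal V ∧ C • W = V.map (Int.castRingHom ℚ) ∧ IsL V Λ ∧ analyticOrderAt Λ 1 = r

/-- the twist `E^d : y² = x³ + a d² x + b d³` of `E : y² = x³ + a x + b` -/
def twist (a b : ℤ) (d : ℤ) : WeierstrassCurve ℚ :=
  ⟨0, 0, 0, ((a * d ^ 2 : ℤ) : ℚ), ((b * d ^ 3 : ℤ) : ℚ)⟩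

/-- the number of the squarefree integers `d` with `|d| < X` and the property `P` -/
noncomputable def count (P : ℤ → Prop) (X : ℝ) : ℕ :=
  {d : ℤ | Squarefree d ∧ |(d : ℝ)| < X ∧ P d}.ncard

/-- `S(X)`: the number of the squarefree integers `d` with `|d| < X` -/
noncomputable def S (X : ℝ) : ℕ := count (fun _ => True) X

/-- `N_r(E, X)` for `E : y² = x³ + a x + b` -/
noncomputable def N (a b : ℤ) (r : ℕ) (X : ℝ) : ℕ := count (fun d => AnalyticRank (twist a b d) r) X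

/-! ### the curves -/

/-- the coefficients of `E_{j,e} : y² = x³ + A j e x + B j e`, the quadratic twist by `e` of `17a2` (`j = 0`),
`X_0(15)`, `X_0(21)`, `X_0(24)` (`j = 1, 2, 3`) -/
def A (j : Fin 4) (e : ℤ) : ℤ :=
  (match j with | 0 => -7371 | 1 => -12987 | 2 => -5211 | 3 => -351) * e ^ 2

/-- see `A` -/
def B (j : Fin 4) (e : ℤ) : ℤ :=
  (match j with | 0 => -240570 | 1 => -263466 | 2 => -31050 | 3 => 1890) * e ^ 3

/-- analytic rank `0`, only finitely many rational points, and `Ш[2^∞] = 0` -/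
def Good (W : WeierstrassCurve ℚ) : Prop :=
  AnalyticRank W 0 ∧ Finite W.toAffine.Point ∧ ∀ (n : ℕ) (x : Sha W), 2 ^ n • x = 0 → x = 0

/-- the squarefree integer in the class of `e d` modulo squares -/
def tw (e d : ℤ) : ℤ := e * d / (Int.gcd e d : ℤ) ^ 2

/-- the families, in terms of the squarefree integer `m`: for `j = 0` the root number of the twist by `m`
of `17a2` is `1` -/
def Fam (j : Fin 4) (m : ℤ) : Prop := match j with
  | 0 => (0 < m ∧ jacobiSym m 17 = 1) ∨ (m < 0 ∧ jacobiSym m 17 ≠ 1)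
  | 1 => m < 0 ∧ (m % 60 = 13 ∨ m % 60 = 37)
  | 2 => m < 0 ∧ m % 3 ≠ 1 ∧ (m % 7 = 0 ∨ m % 7 = 1 ∨ m % 7 = 2 ∨ m % 7 = 4)
  | 3 => m < 0 ∧ m % 24 = 13

/-- the class of `d₀`: the same sign, and the same class in `ℚ_p^×` modulo squares for `p ∈ P` -/
def Class (P : Finset ℕ) (d₀ d : ℤ) : Prop :=
  0 < d * d₀ ∧ ∀ (p : ℕ) [Fact p.Prime], p ∈ P → IsSquare ((d * d₀ : ℤ) : ℚ_[p])

/-- the pattern: `E_{0,e}^d`, `e ∈ T`, is Good exactly for `e ∈ U`; for `e ∈ T'` and all `j ≠ 0` for which the local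
condition holds at `d₀`, `E_{j,e}^d` is Good exactly for `e ∈ U'` -/
def Pattern (T U T' U' : Finset ℤ) (d₀ d : ℤ) : Prop :=
  (∀ e ∈ T, (Good (twist (A 0 e) (B 0 e) d) ↔ e ∈ U)) ∧
    ∀ e ∈ T', ∀ j : Fin 4, j ≠ 0 → Fam j (tw e d₀) → (Good (twist (A j e) (B j e) d) ↔ e ∈ U')

/-- the numbers of the odd prime factors of `d` in the residue classes modulo `q` -/
def cls (q : ℕ) (d : ℤ) (a : ℕ) : ℕ := ((d.natAbs.primeFactors.erase 2).filter fun p => p % q = a).card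

/-- the constant `(1 - 1/2) (1 - 1/8) (1 - 1/32) ⋯ = 0.4194...` -/
noncomputable def c : ℝ := ∏' i : ℕ, (1 - (1 / 2 : ℝ) ^ (2 * i + 1))

/-- the constant `(1 - 1/2) (1 - 1/4) (1 - 1/8) ⋯ = 0.2887...` -/
noncomputable def η : ℝ := ∏' i : ℕ, (1 - (1 / 2 : ℝ) ^ (i + 1))

/-- the limit of the proportion of the pattern -/
noncomputable def κ (T U T' U' : Finset ℤ) : ℝ :=
  c ^ U.card * (1 - c) ^ (T \ U).card * (η ^ U'.card * (1 - η) ^ (T' \ U').card)

section proof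

open Pool.Agent.H743.X17 (parts Parts Sys WM EM SH Nr num Rt)
open Pool.Agent.H743.JL (H4 al3 be3)
open Pool.Agent.N855.GF.Lc17 (Loc)
open Pool.Agent.H468.WM (opf cnt)
open Pool.Agent.H468.WJ (Pat kp)
open Pool.Agent.H468.G4

lemma good_mk {W : WeierstrassCurve ℚ} {V : WeierstrassCurve ℤ} {Λ : ℂ → ℂ} (hV : IsMinimal V)
    (hC : ∃ C : WeierstrassCurve.VariableChange ℚ, C • W = V.map (Int.castRingHom ℚ))
    (hL : IsL V Λ) (h1 : Λ 1 ≠ 0) (hF : Pool.Agent.H743.X17.FinSha W) : Good W := by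
  obtain ⟨C, hC⟩ := hC
  exact ⟨⟨V, C, Λ, hV, hC, hL, (hL.1.analyticAt 1).analyticOrderAt_eq_zero.2 h1⟩, hF⟩

/-! #### conductor 17 -/

lemma coef {e d : ℤ} (he : Squarefree e) (hd : Squarefree d) : ∃ g : ℕ, g ≠ 0 ∧
    A 0 e * d ^ 2 = -7371 * ((g : ℤ) ^ 2 * tw e d) ^ 2 ∧
    B 0 e * d ^ 3 = -240570 * ((g : ℤ) ^ 2 * tw e d) ^ 3 := by
  obtain ⟨g, hg, h⟩ := Pool.Agent.H743.X17.tw_spec he hd
  have h' : e * d = (g : ℤ) ^ 2 * tw e d := h
  refine ⟨g, hg, ?_, ?_⟩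
  · rw [← h']; unfold A; ring
  · rw [← h']; unfold B; ring

lemma good0 {e d : ℤ} (he : Squarefree e) (hd : Squarefree d) (h1 : tw e d ≠ 1) :
    Good (twist (A 0 e) (B 0 e) d) ↔ Sys (tw e d) := by
  have hm : Squarefree (tw e d) := tw_sf he hd
  obtain ⟨g, hg, ha, hb⟩ := coef he hd
  have hfs := Pool.Agent.H743.X17.finSha_sh parts hm hg ha hb
  refine ⟨fun h => hfs.1 h.2, fun h => ?_⟩
  obtain ⟨C, hC⟩ := Pool.Agent.H743.X17.change hg ha hb
  obtain ⟨hO, f, y, hf, hy, h0, hv⟩ := Pool.Agent.H743.X17.main parts hm h1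
  have hyo : Odd y := hy.2 ((Pool.Agent.H743.X17.finSha_iff parts hm).2 h)
  refine good_mk (V := WM (tw e d)) (Λ := f) (parts.min (tw e d) hm) ⟨C, hC⟩ hf ?_ (hfs.2 h)
  rw [hv]
  have hT : (Pool.Agent.H743.X17.TamProd (WM (tw e d)) : ℝ) ≠ 0 := by
    rw [Pool.Agent.H743.X17.tamProd_eq parts hm]
    split_ifs <;> simp
  have hO' : Pool.Agent.Y700.Omega (WM (tw e d)) ≠ 0 := hO.ne'
  have hy' : (y : ℝ) ≠ 0 := by
    have : y ≠ 0 := by
      rintro rfl
      exact absurd hyo (by decide)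
    exact_mod_cast this
  rw [Complex.ofReal_ne_zero]
  positivity

/-! #### `X_0(15)`, `X_0(21)`, `X_0(24)` -/

lemma A_succ (i : Fin 3) (e : ℤ) : A i.succ e = -27 * al3 i * e ^ 2 := by
  fin_cases i <;> norm_num [A, al3]

lemma B_succ (i : Fin 3) (e : ℤ) : B i.succ e = -54 * be3 i * e ^ 3 := by
  fin_cases i <;> norm_num [B, be3]

lemma fam_succ (i : Fin 3) (m : ℤ) : Fam i.succ m ↔ Pool.Agent.H743.JL.Fam i m := by
  fin_cases i <;> exact Iff.rfl

lemma good4 (i : Fin 3) {e d : ℤ} (he : Squarefree e) (hd : Squarefree d)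
    (hF : Pool.Agent.H743.JL.Fam i (tw e d)) :
    Good (twist (A i.succ e) (B i.succ e) d) ↔ H4 (tw e d) := by
  have hm : Squarefree (tw e d) := tw_sf he hd
  obtain ⟨g, hg, h⟩ := Pool.Agent.H743.X17.tw_spec he hd
  have h' : e * d = (g : ℤ) ^ 2 * tw e d := h
  have hq : (e : ℚ) * d = (g : ℚ) ^ 2 * (tw e d : ℤ) := by exact_mod_cast congrArg (fun n : ℤ => (n : ℚ)) h'
  have hgq : (g : ℚ) ≠ 0 := by exact_mod_cast hg
  have ha : ((A i.succ e * d ^ 2 : ℤ) : ℚ) = -27 * (al3 i : ℚ) * ((g : ℚ) ^ 2 * (tw e d : ℤ)) ^ 2 := by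
    rw [A_succ, ← hq]
    push_cast
    ring
  have hb : ((B i.succ e * d ^ 3 : ℤ) : ℚ) = -54 * (be3 i : ℚ) * ((g : ℚ) ^ 2 * (tw e d : ℤ)) ^ 3 := by
    rw [B_succ, ← hq]
    push_cast
    ring
  obtain ⟨h1, h2, h3, Λ, h4, h5⟩ := short i hm hF hgq ha hb
  exact ⟨fun h => h1.1 h.2, fun h => good_mk h2 h3 h4 (h5 h) (h1.2 h)⟩

lemma fin4 {j : Fin 4} (hj : j ≠ 0) : ∃ i : Fin 3, j = i.succ := by
  obtain ⟨i, hi⟩ := Fin.exists_succ_eq.2 hj
  exact ⟨i, hi.symm⟩

lemma fam_neg {j : Fin 4} (hj : j ≠ 0) {m : ℤ} (h : Fam j m) : m < 0 := by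
  obtain ⟨i, rfl⟩ := fin4 hj
  fin_cases i <;> exact h.1

lemma cls_eq (q : ℕ) (m : ℤ) : cls q m = cnt q (opf m) := rfl

lemma class_eq (P : Finset ℕ) (d₀ d : ℤ) : Class P d₀ d ↔ Loc True P d₀ d :=
  ⟨fun h => ⟨fun _ => h.1, h.2⟩, fun h => ⟨h.1 trivial, h.2⟩⟩

lemma pattern_iff {P : Finset ℕ} {d₀ : ℤ} {T T' : Finset ℤ} (hP2 : {2, 3, 5, 7, 17} ⊆ P)
    (hd₀ : Squarefree d₀) (hT : ∀ e ∈ T, Squarefree e ∧ Fam 0 (tw e d₀))
    (hT' : ∀ e ∈ T', Squarefree e ∧ ∃ j, j ≠ 0 ∧ Fam j (tw e d₀)) (U U' : Finset ℤ) {d : ℤ}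
    (hd : Squarefree d) (hdT : d ∉ T) (h : Loc True P d₀ d) :
    Pattern T U T' U' d₀ d ↔ Pat T U T' U' d := by
  have key : ∀ (i : Fin 3) (e : ℤ), e ∈ T' → Fam i.succ (tw e d₀) →
      (Good (twist (A i.succ e) (B i.succ e) d) ↔ H4 (tw e d)) := by
    intro i e he hf
    refine good4 i (hT' e he).1 hd ?_
    exact fam_cls i (hT' e he).1 hd₀ hd (hP2 (by simp)) (hP2 (by simp)) (hP2 (by simp))
      (hP2 (by simp)) h ((fam_succ i _).1 hf)
  have key0 : ∀ e ∈ T, (Good (twist (A 0 e) (B 0 e) d) ↔ Sys (tw e d)) := by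
    intro e he
    refine good0 (hT e he).1 hd fun h1 => hdT ?_
    rw [Pool.Agent.H743.X17.tw_one (hT e he).1 hd h1]
    exact he
  constructor
  · rintro ⟨h1, h2⟩
    refine ⟨fun e he => ?_, fun e he => ?_⟩
    · exact (key0 e he).symm.trans (h1 e he)
    · obtain ⟨-, j, hj, hf⟩ := hT' e he
      obtain ⟨i, rfl⟩ := fin4 hj
      exact (key i e he hf).symm.trans (h2 e he _ hj hf)
  · rintro ⟨h1, h2⟩
    refine ⟨fun e he => ?_, fun e he j hj hf => ?_⟩
    · exact (key0 e he).trans (h1 e he)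
    · obtain ⟨i, rfl⟩ := fin4 hj
      exact (key i e he hf).trans (h2 e he)

lemma main {P : Finset ℕ} {d₀ : ℤ} {T T' : Finset ℤ} (hP : ∀ p ∈ P, p.Prime)
    (hP2 : {2, 3, 5, 7, 17} ⊆ P) (hd₀ : Squarefree d₀)
    (hT : ∀ e ∈ T, Squarefree e ∧ Fam 0 (tw e d₀))
    (hT' : ∀ e ∈ T', Squarefree e ∧ ∃ j, j ≠ 0 ∧ Fam j (tw e d₀)) {U U' : Finset ℤ} (hU : U ⊆ T)
    (hU' : U' ⊆ T') :
    Tendsto (fun X : ℝ => (count (fun d => Class P d₀ d ∧ Pattern T U T' U' d₀ d) X : ℝ) /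
      count (Class P d₀) X) atTop (𝓝 (κ T U T' U')) ∧
    ∀ q : ℕ, 0 < q → ∀ ε : ℝ, 0 < ε → ∃ X₀ : ℝ, ∀ X : ℝ, X₀ ≤ X → ∀ V : Set (ℕ → ℕ),
      |(count (fun d => Class P d₀ d ∧ Pattern T U T' U' d₀ d ∧ cls q d ∈ V) X : ℝ) -
        κ T U T' U' * count (fun d => Class P d₀ d ∧ cls q d ∈ V) X| ≤
          ε * count (Class P d₀) X := by
  have h17 : 17 ∈ P := hP2 (by simp)
  obtain ⟨δ, X₁, hδ, hlow⟩ := low P d₀ hP h17 hd₀
  have hcl : Class P d₀ = Loc True P d₀ := funext fun d => propext (class_eq P d₀ d)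
  have base : ∀ q : ℕ, 0 < q → ∀ ε : ℝ, 0 < ε → ∃ X₀ : ℝ, ∀ X : ℝ, X₀ ≤ X → ∀ V : Set (ℕ → ℕ),
      |(Nr (fun d => Loc True P d₀ d ∧ Pattern T U T' U' d₀ d ∧ cnt q (opf d) ∈ V) X : ℝ) -
        κ T U T' U' * Nr (fun d => Loc True P d₀ d ∧ cnt q (opf d) ∈ V) X| ≤ ε * X := by
    intro q hq ε hε
    exact law T T' P d₀ (fun e he => hT e he) (fun e he => ⟨(hT' e he).1, by
      obtain ⟨-, j, hj, hf⟩ := hT' e he
      exact fam_neg hj hf⟩) hP h17 hd₀ hq hU hU' T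
      (fun d hd hdT h => pattern_iff hP2 hd₀ hT hT' U U' hd hdT h) ε hε
  constructor
  · rw [hcl]
    refine lim (Loc True P d₀) (Pattern T U T' U' d₀) _ hδ hlow fun ε hε => ?_
    obtain ⟨X₀, h⟩ := base 1 one_pos ε hε
    refine ⟨X₀, fun X hX => ?_⟩
    have h1 := h X hX Set.univ
    simpa only [Set.mem_univ, and_true] using h1
  · intro q hq ε hε
    obtain ⟨X₀, h⟩ := base q hq (ε * δ) (by positivity)
    refine ⟨max (max X₀ X₁) 0, fun X hX V => ?_⟩
    have a1 : X₀ ≤ X := (le_max_left _ _).trans ((le_max_left _ _).trans hX)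
    have a2 : X₁ ≤ X := (le_max_right _ _).trans ((le_max_left _ _).trans hX)
    have h1 := h X a1 V
    have h2 := hlow X a2
    rw [hcl]
    refine le_trans h1 ?_
    calc ε * δ * X = ε * (δ * X) := by ring
      _ ≤ ε * (Nr (Loc True P d₀) X : ℝ) := mul_le_mul_of_nonneg_left h2 hε.le

lemma c_pos : 0 < c := by
  have h : 0.4194 < c := Pool.Agent.H743.X17.c2_bounds.1
  linarith

lemma η_pos : 0 < η := by
  have h : 0.2887 < η := Pool.Agent.N916.GB.eta_bounds.1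
  linarith

lemma lowF (F : Finset (Fin 4 × ℤ)) {d₀ : ℤ} (hd₀ : Squarefree d₀)
    (hF : ∀ f ∈ F, Squarefree f.2 ∧ Fam f.1 (tw f.2 d₀)) : ∃ δ X₀ : ℝ, 0 < δ ∧ ∀ X : ℝ, X₀ ≤ X →
      δ * X ≤ (Nr (fun d => ∀ f ∈ F, Good (twist (A f.1 f.2) (B f.1 f.2) d)) X : ℝ) := by
  classical
  obtain ⟨P, hPd⟩ : ∃ P : Finset ℕ, P = {2, 3, 5, 7, 17} := ⟨_, rfl⟩
  have hP : ∀ p ∈ P, p.Prime := by
    intro p hp
    rw [hPd] at hp
    simp only [Finset.mem_insert, Finset.mem_singleton] at hp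
    rcases hp with rfl | rfl | rfl | rfl | rfl <;> norm_num
  obtain ⟨T, hT⟩ : ∃ T : Finset ℤ, T = (F.filter fun f => f.1 = 0).image Prod.snd := ⟨_, rfl⟩
  obtain ⟨T', hT'⟩ : ∃ T' : Finset ℤ, T' = (F.filter fun f => f.1 ≠ 0).image Prod.snd := ⟨_, rfl⟩
  have mT : ∀ e ∈ T, Squarefree e ∧ Fam 0 (tw e d₀) := by
    intro e he
    rw [hT, Finset.mem_image] at he
    obtain ⟨f, hf, rfl⟩ := he
    rw [Finset.mem_filter] at hf
    have := hF f hf.1
    rw [hf.2] at this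
    exact this
  have mT' : ∀ e ∈ T', Squarefree e ∧ ∃ j, j ≠ 0 ∧ Fam j (tw e d₀) := by
    intro e he
    rw [hT', Finset.mem_image] at he
    obtain ⟨f, hf, rfl⟩ := he
    rw [Finset.mem_filter] at hf
    exact ⟨(hF f hf.1).1, f.1, hf.2, (hF f hf.1).2⟩
  obtain ⟨h1, -⟩ := main hP (by rw [hPd]) hd₀ mT mT' (Finset.Subset.refl T) (Finset.Subset.refl T')
  obtain ⟨δ, X₁, hδ, hlow⟩ := low P d₀ hP (by rw [hPd]; simp) hd₀
  have hκ : 0 < κ T T T' T' := by
    unfold κ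
    rw [Finset.sdiff_self, Finset.sdiff_self, Finset.card_empty, pow_zero, pow_zero, mul_one,
      mul_one]
    exact mul_pos (pow_pos c_pos _) (pow_pos η_pos _)
  have hcl : Class P d₀ = Loc True P d₀ := funext fun d => propext (class_eq P d₀ d)
  rw [hcl] at h1
  have h2 := h1.eventually (lt_mem_nhds (by linarith : κ T T T' T' / 2 < κ T T T' T'))
  obtain ⟨X₂, h3⟩ := eventually_atTop.1 h2
  refine ⟨κ T T T' T' / 2 * δ, max (max X₁ X₂) 1, by positivity, fun X hX => ?_⟩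
  have a1 : X₁ ≤ X := (le_max_left _ _).trans ((le_max_left _ _).trans hX)
  have a2 : X₂ ≤ X := (le_max_right _ _).trans ((le_max_left _ _).trans hX)
  have a3 : 1 ≤ X := (le_max_right _ _).trans hX
  have b1 := hlow X a1
  have hN : 0 < (Nr (Loc True P d₀) X : ℝ) := lt_of_lt_of_le (by positivity) b1
  have b2 : κ T T T' T' / 2 <
      (count (fun d => Loc True P d₀ d ∧ Pattern T T T' T' d₀ d) X : ℝ) / Nr (Loc True P d₀) X :=
    h3 X a2
  rw [lt_div_iff₀ hN] at b2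
  have b3 : (count (fun d => Loc True P d₀ d ∧ Pattern T T T' T' d₀ d) X : ℝ) ≤
      Nr (fun d => ∀ f ∈ F, Good (twist (A f.1 f.2) (B f.1 f.2) d)) X := by
    refine Nat.cast_le.2 (Pool.Agent.H743.X17.Nr_mono (fun d hd h f hf => ?_) X)
    obtain ⟨-, p1, p2⟩ := h
    by_cases h0 : f.1 = 0
    · have hm : f.2 ∈ T := by
        rw [hT]
        exact Finset.mem_image.2 ⟨f, Finset.mem_filter.2 ⟨hf, h0⟩, rfl⟩
      have := (p1 _ hm).2 hm
      rw [h0]
      exact this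
    · have hm : f.2 ∈ T' := by
        rw [hT']
        exact Finset.mem_image.2 ⟨f, Finset.mem_filter.2 ⟨hf, h0⟩, rfl⟩
      exact (p2 _ hm f.1 h0 (hF f hf).2).2 hm
  calc κ T T T' T' / 2 * δ * X = κ T T T' T' / 2 * (δ * X) := by ring
    _ ≤ κ T T T' T' / 2 * (Nr (Loc True P d₀) X : ℝ) := mul_le_mul_of_nonneg_left b1 (by positivity)
    _ ≤ _ := b2.le.trans b3

/-- one member of each family -/
lemma seed (j : Fin 4) : ∃ s : ℤ, Squarefree s ∧ Fam j s := by
  have h3 : Squarefree (-3 : ℤ) := by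
    rw [← Int.squarefree_natAbs]
    exact (by norm_num : Nat.Prime 3).squarefree
  have h23 : Squarefree (-23 : ℤ) := by
    rw [← Int.squarefree_natAbs]
    exact (by norm_num : Nat.Prime 23).squarefree
  have h11 : Squarefree (-11 : ℤ) := by
    rw [← Int.squarefree_natAbs]
    exact (by norm_num : Nat.Prime 11).squarefree
  fin_cases j
  · exact ⟨-3, h3, Or.inr ⟨by norm_num, by norm_num⟩⟩
  · exact ⟨-23, h23, by norm_num, by norm_num⟩
  · exact ⟨-3, h3, by norm_num, by norm_num, by norm_num⟩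
  · exact ⟨-11, h11, by norm_num, by norm_num⟩

lemma each (j : Fin 4) {e : ℤ} (he : Squarefree e) :
    0 < liminf (fun X : ℝ => (N (A j e) (B j e) 0 X : ℝ) / S X) atTop := by
  obtain ⟨s, hs, hf⟩ := seed j
  have e1 : tw e (tw e s) = s := Pool.Agent.H743.X17.tw_tw he hs
  obtain ⟨δ, X₀, hδ, h⟩ := lowF {(j, e)} (d₀ := tw e s) (tw_sf he hs) (fun f hf' => by
    rw [Finset.mem_singleton.1 hf']
    exact ⟨he, by rw [e1]; exact hf⟩)
  refine pos_liminf (X₁ := X₀) (fun d => AnalyticRank (twist (A j e) (B j e) d) 0) hδ fun X hX => ?_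
  refine (h X hX).trans (Nat.cast_le.2 (Pool.Agent.H743.X17.Nr_mono (fun d hd h => ?_) X))
  exact (h (j, e) (Finset.mem_singleton_self _)).1

/-! #### infinite sets -/

lemma inf_set (T : Set ℤ) (n : ℕ) (hT : ∀ e ∈ T, Squarefree e) :
    Tendsto (fun X : ℝ => (count (fun d => {e | e ∈ T ∧ Fam 0 (tw e d)}.Infinite ∧
      ¬ ∃ F : Finset ℤ, (∀ e ∈ F, e ∈ T) ∧ F.card = n ∧
        ∀ e ∈ F, Good (twist (A 0 e) (B 0 e) d)) X : ℝ) / S X) atTop (𝓝 0) := by
  have h := Pool.Agent.H743.JL.hu T (n + 1) hT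
  have h1 : Tendsto (fun X : ℝ => (Nr (fun d => {t | t ∈ T ∧ Rt (Pool.Agent.H743.JL.tw t d)}.Infinite ∧
      ¬ ∃ F : Finset ℤ, (∀ t ∈ F, t ∈ T) ∧ F.card = n + 1 ∧
        ∀ t ∈ F, Sys (Pool.Agent.H743.JL.tw t d)) X : ℝ) / (Nr (fun _ => True) X : ℝ)) atTop (𝓝 0) :=
    Pool.Agent.H743.X17.lim_Nr h
  refine squeeze_zero (fun X => by positivity) (fun X => ?_) h1
  refine div_le_div_of_nonneg_right (Nat.cast_le.2 ?_) (Nat.cast_nonneg _)
  refine Pool.Agent.H743.X17.Nr_mono (fun d hd hh => ?_) X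
  obtain ⟨h2, h3⟩ := hh
  refine ⟨h2, ?_⟩
  rintro ⟨F, k1, k2, k3⟩
  apply h3
  have k4 : n ≤ (F.erase d).card := by
    have := Finset.pred_card_le_card_erase (s := F) (a := d)
    omega
  obtain ⟨G, k5, k6⟩ := Finset.exists_subset_card_eq k4
  refine ⟨G, fun e he => k1 e (Finset.mem_of_mem_erase (k5 he)), k6, fun e he => ?_⟩
  have k7 := k5 he
  rw [Finset.mem_erase] at k7
  have k8 := hT e (k1 e k7.2)
  refine (good0 k8 hd fun h1 => k7.1 ?_).2 (k3 e k7.2)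
  exact (Pool.Agent.H743.X17.tw_one k8 hd h1).symm

/-! #### `X_0(21)` -/

lemma mem_of {s : Finset ℤ} {p : ℤ → Prop} {i : DecidablePred p} {a : ℤ} (h1 : a ∈ s) (h2 : p a) :
    a ∈ @Finset.filter ℤ p i s := (@Finset.mem_filter ℤ p i s a).2 ⟨h1, h2⟩

lemma tw_one' (d : ℤ) : tw 1 d = d := by
  unfold tw
  rw [Int.one_gcd, one_mul]
  norm_num

open Classical in
lemma neg_half (X : ℕ) : 2 * ((Finset.Icc (-(X : ℤ)) X).filter fun m => m < 0 ∧ Squarefree m).card =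
    num (fun _ => True) X := by
  have h1 : ((Finset.Icc (-(X : ℤ)) X).filter fun m => m < 0 ∧ Squarefree m).card =
      ((Finset.Icc (-(X : ℤ)) X).filter fun m => 0 < m ∧ Squarefree m).card := by
    refine Finset.card_bij (fun m _ => -m) (fun m hm => ?_) (fun a _ b _ h => neg_injective h)
      (fun m hm => ?_)
    · rw [Finset.mem_filter, Finset.mem_Icc] at hm ⊢
      exact ⟨⟨by omega, by omega⟩, by omega, by
        rw [← Int.squarefree_natAbs, Int.natAbs_neg, Int.squarefree_natAbs]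
        exact hm.2.2⟩
    · rw [Finset.mem_filter, Finset.mem_Icc] at hm
      refine ⟨-m, ?_, neg_neg m⟩
      rw [Finset.mem_filter, Finset.mem_Icc]
      exact ⟨⟨by omega, by omega⟩, by omega, by
        rw [← Int.squarefree_natAbs, Int.natAbs_neg, Int.squarefree_natAbs]
        exact hm.2.2⟩
  have h2 : num (fun _ => True) X =
      ((Finset.Icc (-(X : ℤ)) X).filter fun m => m < 0 ∧ Squarefree m).card +
      ((Finset.Icc (-(X : ℤ)) X).filter fun m => 0 < m ∧ Squarefree m).card := by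
    rw [← Finset.card_union_of_disjoint, ← Finset.filter_or]
    · unfold Pool.Agent.H743.X17.num
      refine Pool.Agent.H468.WM.filter_card_congr _ fun m _ => ?_
      constructor
      · rintro ⟨b, -⟩
        rcases lt_trichotomy m 0 with h | h | h
        · exact Or.inl ⟨h, b⟩
        · exact absurd h b.ne_zero
        · exact Or.inr ⟨h, b⟩
      · rintro (⟨-, b⟩ | ⟨-, b⟩)
        · exact ⟨b, trivial⟩
        · exact ⟨b, trivial⟩
    · rw [Finset.disjoint_left]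
      intro m h h'
      rw [Finset.mem_filter] at h h'
      omega
  rw [h2, ← h1]
  ring

open Classical in
lemma x21 : Tendsto (fun X : ℕ => (num (fun d => Fam 2 d ∧ H4 d) X : ℝ) / (num (fun _ => True) X : ℝ))
    atTop (𝓝 (45 / 256 * η)) := by
  have hper : Pool.Agent.H114.X21.Per 21 (fun m => m % 3 ≠ 1 ∧
      (m % 7 = 0 ∨ m % 7 = 1 ∨ m % 7 = 2 ∨ m % 7 = 4)) := by
    intro x y hxy
    have h1 : (21 : ℤ) ∣ x - y := by exact_mod_cast hxy
    have h3 : x % 3 = y % 3 := by omega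
    have h4 : x % 7 = y % 7 := by omega
    show (x % 3 ≠ 1 ∧ (x % 7 = 0 ∨ x % 7 = 1 ∨ x % 7 = 2 ∨ x % 7 = 4)) ↔
      (y % 3 ≠ 1 ∧ (y % 7 = 0 ∨ y % 7 = 1 ∨ y % 7 = 2 ∨ y % 7 = 4))
    rw [h3, h4]
  have h3 : Squarefree (-3 : ℤ) := by
    rw [← Int.squarefree_natAbs]
    exact (by norm_num : Nat.Prime 3).squarefree
  have key := Pool.Agent.H114.X21.dens (L := 21) (by norm_num) hper (m₀ := -3) (by norm_num) h3
    ⟨by norm_num, by norm_num⟩
  have k2 := (Pool.Agent.H233.X21.t_SQD.mul key).mul_const (1 / 2 : ℝ)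
  have e0 : (45 / 128 : ℝ) * Pool.Agent.N916.GB.eta * (1 / 2) = 45 / 256 * η := by
    show (45 / 128 : ℝ) * η * (1 / 2) = 45 / 256 * η
    ring
  rw [e0] at k2
  refine k2.congr' ?_
  filter_upwards [eventually_ge_atTop 3] with X hX
  have aux : ∀ b b' n g g' k : ℕ, b = b' → b' ≠ 0 → g = g' → 2 * n = k →
      (b : ℝ) / n * (g / b') * (1 / 2) = (g' : ℝ) / k := by
    rintro b _ n g _ _ rfl hb rfl rfl
    have hb' : (b : ℝ) ≠ 0 := by exact_mod_cast hb
    by_cases hn : n = 0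
    · rw [hn]
      simp
    · have hn' : (n : ℝ) ≠ 0 := by exact_mod_cast hn
      push_cast
      field_simp
  refine aux _ _ _ _ _ _ ?_ ?_ ?_ ?_
  · exact Pool.Agent.H468.WM.filter_card_congr _ fun _ _ => Iff.rfl
  · exact (Finset.card_pos.2 ⟨-3, mem_of (Finset.mem_Icc.2 ⟨by omega, by omega⟩)
      ⟨by norm_num, h3, by norm_num, by norm_num⟩⟩).ne'
  · unfold Pool.Agent.H743.X17.num
    refine Pool.Agent.H468.WM.filter_card_congr _ fun m _ => ?_
    constructor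
    · rintro ⟨b1, a, ⟨b2, b3⟩, b4⟩
      exact ⟨a, ⟨b1, b2, b3⟩, (Pool.Agent.H743.JL.gm m b1 (by
        rintro rfl
        norm_num at b3) a).1 b4⟩
    · rintro ⟨a, ⟨b1, b2, b3⟩, b4⟩
      exact ⟨b1, a, ⟨b2, b3⟩, (Pool.Agent.H743.JL.gm m b1 (by
        rintro rfl
        norm_num at b3) a).2 b4⟩
  · rw [← neg_half X]

lemma x21_le : 45 / 256 * η ≤ liminf (fun X : ℝ => (N (A 2 1) (B 2 1) 0 X : ℝ) / S X) atTop := by
  refine Pool.Agent.H743.X17.liminf_Nr (P := fun d => Fam 2 d ∧ H4 d)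
    (Q := fun d => AnalyticRank (twist (A 2 1) (B 2 1) d) 0) (R := fun _ => True)
    (fun d hd h => ?_) (fun _ _ _ => trivial) (Pool.Agent.H743.X17.lim_Nr x21)
  have h1 := (good4 1 squarefree_one hd (by rw [tw_one']; exact h.1)).2 (by rw [tw_one']; exact h.2)
  exact h1.1

end proof

theorem result :
    -- (1) the joint law in every class given by finitely many places
    (∀ (P : Finset ℕ) (d₀ : ℤ) (T T' : Finset ℤ), (∀ p ∈ P, p.Prime) → {2, 3, 5, 7, 17} ⊆ P →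
      Squarefree d₀ → (∀ e ∈ T, Squarefree e ∧ Fam 0 (tw e d₀)) →
      (∀ e ∈ T', Squarefree e ∧ ∃ j, j ≠ 0 ∧ Fam j (tw e d₀)) → ∀ U ⊆ T, ∀ U' ⊆ T',
      0 < liminf (fun X : ℝ => (count (Class P d₀) X : ℝ) / S X) atTop ∧
      Tendsto (fun X : ℝ => (count (fun d => Class P d₀ d ∧ Pattern T U T' U' d₀ d) X : ℝ) /
        count (Class P d₀) X) atTop (𝓝 (κ T U T' U')) ∧
      ∀ q : ℕ, 0 < q → ∀ ε : ℝ, 0 < ε → ∃ X₀ : ℝ, ∀ X : ℝ, X₀ ≤ X → ∀ V : Set (ℕ → ℕ),
        |(count (fun d => Class P d₀ d ∧ Pattern T U T' U' d₀ d ∧ cls q d ∈ V) X : ℝ) -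
          κ T U T' U' * count (fun d => Class P d₀ d ∧ cls q d ∈ V) X| ≤
            ε * count (Class P d₀) X) ∧
    -- (2) all the curves of a finite set at once
    (∀ (F : Finset (Fin 4 × ℤ)) (d₀ : ℤ), Squarefree d₀ →
      (∀ f ∈ F, Squarefree f.2 ∧ Fam f.1 (tw f.2 d₀)) →
      0 < liminf (fun X : ℝ =>
        (count (fun d => ∀ f ∈ F, Good (twist (A f.1 f.2) (B f.1 f.2) d)) X : ℝ) / S X) atTop) ∧
    -- (3) every curve
    (∀ (j : Fin 4) (e : ℤ), Squarefree e →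
      0 < liminf (fun X : ℝ => (N (A j e) (B j e) 0 X : ℝ) / S X) atTop) ∧
    45 / 256 * η ≤ liminf (fun X : ℝ => (N (A 2 1) (B 2 1) 0 X : ℝ) / S X) atTop ∧
    0.0507 < 45 / 256 * η ∧
    -- (4) infinite sets
    (∀ (T : Set ℤ) (n : ℕ), (∀ e ∈ T, Squarefree e) →
      Tendsto (fun X : ℝ => (count (fun d => {e | e ∈ T ∧ Fam 0 (tw e d)}.Infinite ∧
        ¬ ∃ F : Finset ℤ, (∀ e ∈ F, e ∈ T) ∧ F.card = n ∧
          ∀ e ∈ F, Good (twist (A 0 e) (B 0 e) d)) X : ℝ) / S X) atTop (𝓝 0)) ∧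
    0.4194 < c ∧ c < 0.4195 ∧ 0.2887 < η ∧ η < 0.2889 := by
  refine ⟨?_, ?_, fun j e he => each j he, x21_le, ?_, inf_set, Pool.Agent.H743.X17.c2_bounds.1,
    Pool.Agent.H743.X17.c2_bounds.2, Pool.Agent.N916.GB.eta_bounds.1,
    Pool.Agent.N916.GB.eta_bounds.2⟩
  · intro P d₀ T T' hP hP2 hd₀ hT hT' U hU U' hU'
    refine ⟨?_, main hP hP2 hd₀ hT hT' hU hU'⟩
    obtain ⟨δ, X₁, hδ, hlow⟩ := Pool.Agent.H468.G4.low P d₀ hP (hP2 (by simp)) hd₀
    have hcl : Class P d₀ = Pool.Agent.N855.GF.Lc17.Loc True P d₀ :=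
      funext fun d => propext (class_eq P d₀ d)
    rw [hcl]
    exact Pool.Agent.H468.G4.pos_liminf _ hδ hlow
  · intro F d₀ hd₀ hF
    obtain ⟨δ, X₁, hδ, hlow⟩ := lowF F hd₀ hF
    exact Pool.Agent.H468.G4.pos_liminf _ hδ hlow
  · have h : 0.2887 < η := Pool.Agent.N916.GB.eta_bounds.1
    norm_num at h ⊢
    linarith

end Pool.Agent.Results.MP_03e5d0_nt.FourTwistClasses
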