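import Pool.Agent.H575.ESB.Main
import Pool.Agent.H914.ESB.Gen
import Pool.Agent.H747.ESB.MQR
import Pool.Agent.H643.ESB.Fam
import Pool.Agent.H333.ESB.Lowk

/-!
# The moments of `2^(rank E(K))` over ALL extensions `K` with group `(ℤ/2)^m` of any number field

Let `F` be any number field, `m ≥ 1`, and `E_i : y² = x³ + a_i x + b_i`, `i` in a finite set, elliptic curves over `F` which
have no `F`-rational point of order two (`x³ + a_i x + b_i` has no zero in `F`).  For an extension `K/F` let `condK K` be
the norm of the product of the primes `v` of `F` for which some `D ∈ F^*` with `√D ∈ K` has odd valuation at `v`; for the `v`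
of odd residue characteristic these are the primes which are ramified in `K`.

**Theorem.**  For all `k` and `m ≥ 1` there are constants `C`, `X₀` such that for all `X ≥ X₀` the set of ALL Galois extensions
`K/F` with group `(ℤ/2)^m` and `condK K ≤ X` is finite, its order is between `C⁻¹ X (log X)^(2^m - 2)` and
`C X (log X)^(2^m - 2)`, and the average over these `K` of `2 ^ (k * ∑_i rank E_i(K))` is at most `C`.

So the ranks of finitely many curves over the extensions with group `(ℤ/2)^m` have bounded average and bounded moments, and the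
proportion of the `K` with `∑_i rank E_i(K) ≥ r` is `O(A^(-r))` for every `A`, uniformly in `X`.

`m = 1`: these are all the quadratic extensions `F(√D)`, `rank E(F(√D)) = rank E(F) + rank E_D(F)`, the family of Goldfeld's
conjecture (`F = ℚ`, `K = ℚ(√d)`: `condK K = |d|` for `d` squarefree).  `m ≥ 2`: `rank E(K)` is the sum of the ranks of the
`2^m` twists `E_D`, `√D ∈ K`; the `2^m - 1` twists of one `K` are dependent, have conductors of very different size, and a given
`D` belongs to many `K` (with weight `2^((m-1) ω(D))`).  Needed is the bound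
`∑_{cond D ≤ X} M^ω(D) #Sel_2(E_D)^k ≪ X (log X)^(M - 1)`, for all `M`, over all `D ∈ F^*/F^*²`.

What was known: for `m = 1` and `F = ℚ` with full rational two-torsion Heath-Brown, Swinnerton-Dyer, Kane, Smith; for
`m = 1` and `Gal(F(E[2])/F) = S_3` Klagsbrun, Mazur and Rubin in another order; Smith for the distribution of the Selmer groups
for 100% of the twists.  For `m ≥ 2` I know of no bound for the average rank of a fixed curve over all extensions, over any
field; even for `F = ℚ`, `m = 2`, it does not follow from results for 100% of the twists.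

Proof.  Sieve and count: projects ESM, ESN, ESF, ESB of run 3997aac3 of the library (as in `MP_78d38b_nt.TwistShaMoments`), with
weights: `Pool/Agent/H575/ESB/AllB.lean`, `RelB`, `CntB`, `Cntw`.  From the twists to the fields: Kummer theory
`H914/ESB/Gen.lean`; the rank over `K` is at most the sum of the ranks of the twists `H747/ESB/MQR.lean`; the sum over the
fields `H643/ESB/Fam.lean`; the lower bound for the number of the fields `H333/ESB/Lowk.lean`; assembly
`H575/ESB/Main.lean`.
-/

set_option autoImplicit false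

open scoped Classical

namespace Pool.Agent.Results.MP_03e5d0_nt.MultiquadraticRankMoments

open NumberField IsDedekindDomain

/-- `K/F` is a Galois extension with group `(ℤ/2)^m` (in a fixed algebraic closure of `F`) -/
def MQ {F : Type} [Field F] (m : ℕ) (K : IntermediateField F (AlgebraicClosure F)) : Prop :=
  IsGalois F K ∧ (∀ σ : K ≃ₐ[F] K, σ * σ = 1) ∧ Module.finrank F K = 2 ^ m

/-- the valuation of `D` at the prime `v` is odd -/
def OddAt {F : Type} [Field F] [NumberField F] (v : HeightOneSpectrum (𝓞 F)) (D : F) : Prop :=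
  ∃ k : ℤ, v.valuation F D = WithZero.exp (1 + 2 * k)

/-- some `D ∈ F` which is a square in `K` has odd valuation at `v` (for `v` not above two: `v` is ramified in `K`) -/
def RamK {F : Type} [Field F] [NumberField F] (K : IntermediateField F (AlgebraicClosure F))
    (v : HeightOneSpectrum (𝓞 F)) : Prop :=
  ∃ D : F, D ≠ 0 ∧ (∃ s ∈ K, s ^ 2 = algebraMap F (AlgebraicClosure F) D) ∧ OddAt v D

/-- the norm of the product of the primes with `RamK` -/
noncomputable def condK {F : Type} [Field F] [NumberField F] (K : IntermediateField F (AlgebraicClosure F)) : ℕ :=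
  ∏ᶠ (v : HeightOneSpectrum (𝓞 F)) (_ : RamK K v), Ideal.absNorm v.asIdeal

/-- the rank of `y² = x³ + a x + b` over the field `M` -/
noncomputable def rkM (M : Type) [Field M] (a b : M) : ℕ :=
  Module.finrank ℤ (⟨0, 0, 0, a, b⟩ : WeierstrassCurve M).toAffine.Point

/-- the rank of `y² = x³ + a x + b` over the extension `K` of `F` -/
noncomputable def rkK {F : Type} [Field F] (a b : F) (K : IntermediateField F (AlgebraicClosure F)) : ℕ :=
  rkM K (algebraMap F K a) (algebraMap F K b)

theorem mq_iff {F : Type} [Field F] (m : ℕ) (K : IntermediateField F (AlgebraicClosure F)) :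
    MQ m K ↔ Pool.Agent.H575.ESB.MQ m K :=
  ⟨fun h => ⟨h.1, h.2.1, h.2.2⟩, fun h => ⟨h.gal, h.sq, h.deg⟩⟩

theorem result : ∀ (F ι : Type) [Field F] [NumberField F] [Fintype ι] (a b : ι → F),
    (∀ i, ∀ x : F, x ^ 3 + a i * x + b i ≠ 0) → ∀ k m : ℕ, 1 ≤ m →
    ∃ C X₀ : ℝ, 0 < C ∧ 1 ≤ X₀ ∧ ∀ X : ℝ, X₀ ≤ X →
      ∃ 𝒦 : Finset (IntermediateField F (AlgebraicClosure F)),
        (∀ K, K ∈ 𝒦 ↔ MQ m K ∧ (condK K : ℝ) ≤ X) ∧
        X * Real.log X ^ (2 ^ m - 2) ≤ C * 𝒦.card ∧
        (𝒦.card : ℝ) ≤ C * X * Real.log X ^ (2 ^ m - 2) ∧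
        (∑ K ∈ 𝒦, (2 : ℝ) ^ (k * ∑ i, rkK (a i) (b i) K)) / 𝒦.card ≤ C := by
  intro F ι _ _ _ a b h k m hm
  obtain ⟨C, X₀, h1, h2, h3⟩ := Pool.Agent.H575.ESB.averageK Pool.Agent.H914.ESB.gen1 Pool.Agent.H747.ESB.mqr
    Pool.Agent.H643.ESB.fam (Pool.Agent.H333.ESB.lowk Pool.Agent.H914.ESB.gen2) F ι a b h k m hm
  refine ⟨C, X₀, h1, h2, fun X hX => ?_⟩
  obtain ⟨𝒦, g1, g2, g3, g4⟩ := h3 X hX
  refine ⟨𝒦, fun K => ?_, g2, g3, g4⟩
  rw [g1 K, mq_iff]
  exact Iff.rfl

end Pool.Agent.Results.MP_03e5d0_nt.MultiquadraticRankMoments
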