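import Pool.Agent.H468.X15G.Sqf
import Pool.Graph.R_pool_sql_team_seeded_620a6dc7.H735X.Fin

/-!
# Goldfeld's conjecture for `X_0(15)`: analytic rank zero for a positive proportion of all twists,
# simultaneously for any number of curves

`E : y² = x³ - 12987 x - 263466` is the curve `X_0(15)`, another equation of which is
`y² = x (x + 16) (x + 25)`: no complex multiplication, all points of order two are rational, and there
is a rational cyclic isogeny of degree `4`.  `E_M`, `M` squarefree and `≡ 1` or `49` modulo `60`, are its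
quadratic twists.  The theorem: for every finite set `T` of such numbers `M`, among ALL squarefree
integers `d`, positive or negative, ordered by `|d|`, the lower density of the `d` such that all the
curves `E_M^d`, `M ∈ T`, have analytic rank `0` (and rank `0`) at the same time is at least
`(5/192) c ^ |T|`, `c = (1 - 1/2) (1 - 1/4) (1 - 1/8) ⋯ = 0.2887...`.

The analytic rank is the order of vanishing at `s = 1` of the entire continuation of the Hasse-Weil
`L`-function of the global minimal equation (all Euler factors).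

Proof.  For the `d ≡ 1, 49` modulo `60` the value `L(E^d, 1)` is `2^(2 k - 1) y² Ω`, `k` the number
of the primes dividing `d`, `y` an integer which is odd if and only if a matrix over `𝔽₂` made of the
Legendre symbols between the prime factors of `d` has no kernel (`H757_X15`, `H468/X15T`); the law of
large numbers for these matrices, also simultaneously for the twists: `H757_X15/DN`, `H735X`.
-/

set_option autoImplicit false

open Filter Topology

namespace Pool.Agent.Results.MP_03e5d0_nt.PositiveProportionX15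

/-- `V` is a global minimal equation: `Δ ≠ 0` and `|Δ|` is minimal among the integral equations -/
def IsMinimal (V : WeierstrassCurve ℤ) : Prop :=
  V.Δ ≠ 0 ∧ ∀ (V' : WeierstrassCurve ℤ) (C : WeierstrassCurve.VariableChange ℚ),
    C • (V.map (Int.castRingHom ℚ)) = V'.map (Int.castRingHom ℚ) → |V.Δ| ≤ |V'.Δ|

/-- `a_p = p - #{affine points modulo p}` -/
noncomputable def ap (V : WeierstrassCurve ℤ) (p : ℕ) : ℤ :=
  p - (Nat.card {P : ZMod p × ZMod p //
    (V.map (Int.castRingHom (ZMod p))).toAffine.Equation P.1 P.2} : ℕ)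

/-- `Λ` is entire and for `Re s > 3/2` it is the Hasse-Weil L-function of the minimal equation `V`:
the product over all primes `p` of `(1 - a_p p^{-s} + p^{1-2s})⁻¹`, without the last term if
`p ∣ Δ`. -/
def IsL (V : WeierstrassCurve ℤ) (Λ : ℂ → ℂ) : Prop :=
  Differentiable ℂ Λ ∧ ∀ s : ℂ, 3 / 2 < s.re →
    HasProd (fun p : Nat.Primes => (1 - (ap V p : ℂ) * ((p : ℕ) : ℂ) ^ (-s) +
      (if ((p : ℕ) : ℤ) ∣ V.Δ then 0 else ((p : ℕ) : ℂ) ^ (1 - 2 * s)))⁻¹) (Λ s)

/-- the analytic rank of `W` is `r`: the order of vanishing at `s = 1` of the entire continuation of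
the L-function of a minimal equation of `W` -/
def AnalyticRank (W : WeierstrassCurve ℚ) (r : ℕ) : Prop :=
  ∃ (V : WeierstrassCurve ℤ) (C : WeierstrassCurve.VariableChange ℚ) (Λ : ℂ → ℂ),
    IsMinimal V ∧ C • W = V.map (Int.castRingHom ℚ) ∧ IsL V Λ ∧ analyticOrderAt Λ 1 = r

/-- the twist `E^d : y² = x³ + a d² x + b d³` of `E : y² = x³ + a x + b` -/
def twist (a b : ℤ) (d : ℤ) : WeierstrassCurve ℚ :=
  ⟨0, 0, 0, ((a * d ^ 2 : ℤ) : ℚ), ((b * d ^ 3 : ℤ) : ℚ)⟩

/-- the set `Dset X` of the squarefree integers `d ≠ 0` with `|d| < X` -/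
def Dset (X : ℝ) : Set ℤ := {d : ℤ | Squarefree d ∧ |(d : ℝ)| < X}

/-- `S(X) = #Dset X` -/
noncomputable def S (X : ℝ) : ℕ := (Dset X).ncard

/-- `N_r(E, X)` for `E : y² = x³ + a x + b` -/
noncomputable def N (a b : ℤ) (r : ℕ) (X : ℝ) : ℕ :=
  {d : ℤ | d ∈ Dset X ∧ AnalyticRank (twist a b d) r}.ncard

/-- the coefficients of `E_M : y² = x³ - 12987 M² x - 263466 M³`, the quadratic twist by `M` of
`X_0(15)` -/
def A (M : ℕ) : ℤ := -12987 * (M : ℤ) ^ 2

/-- see `A` -/
def B (M : ℕ) : ℤ := -263466 * (M : ℤ) ^ 3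

/-- the squarefree numbers `≡ 1` or `49` modulo `60` -/
def Family (M : ℕ) : Prop := Squarefree M ∧ (M % 60 = 1 ∨ M % 60 = 49)

/-- the number of the `d ∈ Dset X` such that all the twists `E_M^d`, `M ∈ T`, have analytic rank `0`
and only finitely many rational points -/
noncomputable def NT (T : Finset ℕ) (X : ℝ) : ℕ :=
  {d : ℤ | d ∈ Dset X ∧ ∀ M ∈ T, AnalyticRank (twist (A M) (B M) d) 0 ∧
    Finite (twist (A M) (B M) d).toAffine.Point}.ncard

/-- the constant `(1 - 1/2) (1 - 1/4) (1 - 1/8) ⋯ = 0.2887...` -/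
noncomputable def c : ℝ := ∏' i : ℕ, (1 - (1 / 2 : ℝ) ^ (i + 1))

section proof

open Pool.Agent.H468.X15
open Pool.Agent.H757_X15 (WD)
open Pool.Agent.H757_X15.DD (Fm Crit)
open Pool.Agent.H735X (tw_sqf tw_fm)

/-- the change of variables to the minimal equation -/
lemma change {D g : ℕ} (h4 : D % 4 = 1) (hg : g ≠ 0) (a b : ℤ)
    (ha : a = -12987 * ((D : ℤ) * g ^ 2) ^ 2) (hb : b = -263466 * ((D : ℤ) * g ^ 2) ^ 3) :
    ∃ C : WeierstrassCurve.VariableChange ℚ,
      C • (⟨0, 0, 0, (a : ℚ), (b : ℚ)⟩ : WeierstrassCurve ℚ) = (WD D).map (Int.castRingHom ℚ) := by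
  have hg' : (6 * (g : ℚ)) ≠ 0 := by
    have : (g : ℚ) ≠ 0 := by exact_mod_cast hg
    positivity
  have h := isWD (K := ℚ) (D : ℤ) (by omega)
  have h1 : ((WD D).map (Int.castRingHom ℚ)).a₁ = 1 := h.a1
  have h3 : ((WD D).map (Int.castRingHom ℚ)).a₃ = 1 := h.a3
  have h2 : 4 * ((WD D).map (Int.castRingHom ℚ)).a₂ = 5 * (D : ℚ) - 1 := by
    have := h.a2
    push_cast at this
    exact this
  have h4' : 2 * ((WD D).map (Int.castRingHom ℚ)).a₄ = -(19 * (D : ℚ) ^ 2 + 1) := by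
    have := h.a4
    push_cast at this
    exact this
  have h6 : 4 * ((WD D).map (Int.castRingHom ℚ)).a₆ = -(39 * (D : ℚ) ^ 3 + 1) := by
    have := h.a6
    push_cast at this
    exact this
  refine ⟨⟨Units.mk0 (6 * (g : ℚ)) hg', 15 * D * g ^ 2, 3 * g, 108 * g ^ 3⟩, ?_⟩
  have hu : (((Units.mk0 (6 * (g : ℚ)) hg')⁻¹ : ℚˣ) : ℚ) = (6 * (g : ℚ))⁻¹ := by
    rw [Units.val_inv_eq_inv_val, Units.val_mk0]
  have e1 : (a : ℚ) = -12987 * ((D : ℚ) * g ^ 2) ^ 2 := by rw [ha]; push_cast; ring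
  have e2 : (b : ℚ) = -263466 * ((D : ℚ) * g ^ 2) ^ 3 := by rw [hb]; push_cast; ring
  have hg0 : (g : ℚ) ≠ 0 := by exact_mod_cast hg
  ext
  · rw [WeierstrassCurve.variableChange_a₁, h1, hu]
    field_simp
    ring
  · rw [WeierstrassCurve.variableChange_a₂, hu]
    have : ((WD D).map (Int.castRingHom ℚ)).a₂ = (5 * (D : ℚ) - 1) / 4 := by linarith
    rw [this]
    field_simp
    ring
  · rw [WeierstrassCurve.variableChange_a₃, h3, hu]
    field_simp
    ring
  · rw [WeierstrassCurve.variableChange_a₄, hu]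
    have : ((WD D).map (Int.castRingHom ℚ)).a₄ = -(19 * (D : ℚ) ^ 2 + 1) / 2 := by linarith
    rw [this]
    simp only [e1]
    field_simp
    ring
  · rw [WeierstrassCurve.variableChange_a₆, hu]
    have : ((WD D).map (Int.castRingHom ℚ)).a₆ = -(39 * (D : ℚ) ^ 3 + 1) / 4 := by linarith
    rw [this]
    simp only [e1, e2]
    field_simp
    ring

/-- the short equation scaled -/
lemma finite_scaled {D g : ℕ} (hg : g ≠ 0) (a b : ℤ)
    (ha : a = -12987 * ((D : ℤ) * g ^ 2) ^ 2) (hb : b = -263466 * ((D : ℤ) * g ^ 2) ^ 3)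
    (hD : D ≠ 0) (hf : Finite (EX D).toAffine.Point) :
    Finite (⟨0, 0, 0, (a : ℚ), (b : ℚ)⟩ : WeierstrassCurve ℚ).toAffine.Point := by
  have hg0 : (g : ℚ) ≠ 0 := by exact_mod_cast hg
  have hD0 : ((D : ℕ) : ℤ) ≠ 0 := by exact_mod_cast hD
  have e1 : (a : ℚ) = -12987 * ((D : ℚ) * g ^ 2) ^ 2 := by rw [ha]; push_cast; ring
  have e2 : (b : ℚ) = -263466 * ((D : ℚ) * g ^ 2) ^ 3 := by rw [hb]; push_cast; ring
  have hv : Pool.Agent.Y700.VR (⟨0, 0, 0, (a : ℚ), (b : ℚ)⟩ : WeierstrassCurve ℚ) (EX D)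
      (3 * g) (123 * D * g ^ 2) 0 0 := by
    refine ⟨by positivity, ?_, ?_, ?_, ?_, ?_⟩
    · show 3 * (g : ℚ) * 0 = 0 + 2 * 0
      norm_num
    · show (3 * (g : ℚ)) ^ 2 * (41 * ((D : ℤ) : ℚ)) = 0 - 0 * 0 + 3 * (123 * (D : ℚ) * g ^ 2) - 0 ^ 2
      push_cast
      ring
    · show (3 * (g : ℚ)) ^ 3 * 0 = 0 + 123 * (D : ℚ) * g ^ 2 * 0 + 2 * 0
      norm_num
    · show (3 * (g : ℚ)) ^ 4 * (400 * ((D : ℤ) : ℚ) ^ 2) = (a : ℚ) - 0 * 0 +
        2 * (123 * (D : ℚ) * g ^ 2) * 0 - (0 + 123 * (D : ℚ) * g ^ 2 * 0) * 0 +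
        3 * (123 * (D : ℚ) * g ^ 2) ^ 2 - 2 * 0 * 0
      rw [e1]
      push_cast
      ring
    · show (3 * (g : ℚ)) ^ 6 * 0 = (b : ℚ) + 123 * (D : ℚ) * g ^ 2 * (a : ℚ) +
        (123 * (D : ℚ) * g ^ 2) ^ 2 * 0 + (123 * (D : ℚ) * g ^ 2) ^ 3 - 0 * 0 - 0 ^ 2 -
        123 * (D : ℚ) * g ^ 2 * 0 * 0
      rw [e1, e2]
      ring
  exact Finite.of_equiv _ (hv.equiv (delta_EX hD0)).toEquiv

lemma omega_ne {D : ℕ} (h4 : D % 4 = 1) (hD0 : D ≠ 0) : Pool.Agent.Y700.Omega (WD D) ≠ 0 := by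
  obtain ⟨s, L, Op, Om, hOp, hOm, g2, g3, hL, hsym, hre⟩ := Pool.Agent.H757_X15.t_SYMB
  have h := Pool.Agent.H757_X15.t_OMEGA L Op Om hOp hOm g2 g3 hL (D : ℤ) (by omega) (by omega)
  have hsq : (0 : ℝ) < Real.sqrt ((D : ℤ) : ℝ) := by
    apply Real.sqrt_pos.2
    have : (0 : ℤ) < D := by omega
    exact_mod_cast this
  rw [h]
  positivity

/-- one member of the family -/
lemma member {D g : ℕ} (hD : Squarefree D) (hF : Fm D) (h1 : D ≠ 1) (hC : Crit D) (hg : g ≠ 0)
    (a b : ℤ) (d : ℤ) (ha : a * d ^ 2 = -12987 * ((D : ℤ) * g ^ 2) ^ 2)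
    (hb : b * d ^ 3 = -263466 * ((D : ℤ) * g ^ 2) ^ 3) :
    AnalyticRank (twist a b d) 0 ∧ Finite (twist a b d).toAffine.Point := by
  constructor
  · obtain ⟨C, hCh⟩ := change (fm_mod4 hF) hg (a * d ^ 2) (b * d ^ 3) ha hb
    obtain ⟨f, hf, y, hv, hy⟩ := lval hD hF h1
    refine ⟨WD D, C, f, minimal_WD hD hF, hCh, hf, ?_⟩
    have hy0 : (y : ℝ) ≠ 0 := by
      have := (hy.2 hC).pos
      positivity
    have hO := omega_ne (fm_mod4 hF) hD.ne_zero
    have hne : f 1 ≠ 0 := by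
      rw [hv]
      have : ((y : ℝ) ^ 2 * 4 ^ D.primeFactors.card * Pool.Agent.Y700.Omega (WD D) / 2 : ℝ) ≠ 0 := by
        positivity
      exact_mod_cast this
    show analyticOrderAt f 1 = 0
    exact analyticOrderAt_eq_zero.2 (Or.inr hne)
  · exact finite_scaled hg (a * d ^ 2) (b * d ^ 3) ha hb hD.ne_zero (finite_EX hD hF h1 hC)

/-- the squarefree part of `M D` -/
def tw (M D : ℕ) : ℕ := M * D / Nat.gcd M D ^ 2

lemma tw_spec {M D : ℕ} : M * D = tw M D * Nat.gcd M D ^ 2 := by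
  have h1 : Nat.gcd M D ^ 2 ∣ M * D := by
    rw [sq]
    exact mul_dvd_mul (Nat.gcd_dvd_left _ _) (Nat.gcd_dvd_right _ _)
  exact (Nat.div_mul_cancel h1).symm

lemma tw_one {M D : ℕ} (hM0 : 0 < M) (hD0 : 0 < D) (h : tw M D = 1) : D = M := by
  have h1 := tw_spec (M := M) (D := D)
  rw [h, one_mul] at h1
  have k1 : Nat.gcd M D ≤ M := Nat.le_of_dvd hM0 (Nat.gcd_dvd_left _ _)
  have k2 : Nat.gcd M D ≤ D := Nat.le_of_dvd hD0 (Nat.gcd_dvd_right _ _)
  have k3 : 0 < Nat.gcd M D := Nat.gcd_pos_of_pos_left _ hM0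
  have e1 : Nat.gcd M D = M := by
    by_contra hne
    have hlt : Nat.gcd M D < M := lt_of_le_of_ne k1 hne
    have : Nat.gcd M D * Nat.gcd M D < M * D := Nat.mul_lt_mul_of_lt_of_le hlt k2 hD0
    rw [h1, sq] at this
    exact lt_irrefl _ this
  have e2 : Nat.gcd M D = D := by
    by_contra hne
    have hlt : Nat.gcd M D < D := lt_of_le_of_ne k2 hne
    have : Nat.gcd M D * Nat.gcd M D < M * D := Nat.mul_lt_mul_of_le_of_lt k1 hlt hM0
    rw [h1, sq] at this
    exact lt_irrefl _ this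
  rw [← e2, e1]

open DX (num num_mono num_or num_mem dens card_iff num_atTop) in
lemma law (T : Finset ℕ) (hT : ∀ M ∈ T, Family M) :
    Tendsto (fun X : ℕ => (num (fun D => ∀ M ∈ T, Crit (tw M D)) X : ℝ) / X) atTop
      (𝓝 (c ^ T.card * (5 / (16 * Real.pi ^ 2)))) := by
  have h := Pool.Agent.H735X.lawD Pool.Agent.H735X.t_JDQ T T hT (Finset.Subset.refl T)
  rw [Finset.card_sdiff_of_subset (Finset.Subset.refl T), Nat.sub_self, pow_zero, mul_one] at h
  have h1 : Tendsto (fun X : ℕ => (num (fun D => ∀ M ∈ T, Crit (tw M D)) X : ℝ) /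
      (num (fun _ => True) X : ℝ)) atTop (𝓝 (c ^ T.card)) := by
    refine h.congr fun X => ?_
    congr 2
    · refine card_iff _ _ fun D => and_congr_right fun _ => ?_
      constructor
      · intro h2 M hM
        exact (h2 M hM).2 hM
      · intro h2 M hM
        exact ⟨fun _ => hM, fun _ => h2 M hM⟩
    · exact card_iff _ _ fun D => ⟨fun h => ⟨h, trivial⟩, fun h => h.1⟩
  have h2 := h1.mul dens
  refine h2.congr' ?_
  filter_upwards [num_atTop.eventually_gt_atTop 0, eventually_gt_atTop 0] with X hX hX0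
  have hX' : (0 : ℝ) < X := by exact_mod_cast hX0
  field_simp

open DX (num fam num_eq mem_fam) in
lemma count_le (T : Finset ℕ) (hT : ∀ M ∈ T, Family M) {X : ℝ} (hX : 0 < X) :
    num (fun D => ∀ M ∈ T, Crit (tw M D)) (GF.fl X) ≤ NT T X + T.card := by
  classical
  have h1 : ((fam (fun D => ∀ M ∈ T, Crit (tw M D)) (GF.fl X)) \ T).card ≤ NT T X := by
    unfold NT
    have h2 : (((fam (fun D => ∀ M ∈ T, Crit (tw M D)) (GF.fl X)) \ T).image
        (fun n : ℕ => (n : ℤ)) : Set ℤ) ⊆ {d : ℤ | d ∈ Dset X ∧ ∀ M ∈ T,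
          AnalyticRank (twist (A M) (B M) d) 0 ∧
          Finite (twist (A M) (B M) d).toAffine.Point} := by
      intro d hd
      rw [Finset.coe_image] at hd
      obtain ⟨D, hD, rfl⟩ := hd
      rw [Finset.mem_coe, Finset.mem_sdiff, mem_fam, Finset.mem_Icc] at hD
      obtain ⟨⟨⟨hD1, hD2⟩, hDF, hDP⟩, hDT⟩ := hD
      refine ⟨⟨Int.squarefree_natCast.2 hDF.1, ?_⟩, fun M hM => ?_⟩
      · have := (GF.lt_iff hX D).2 hD2
        simpa using this
      · have hMF := hT M hM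
        have hM0 : 0 < M := Nat.pos_of_ne_zero hMF.1.ne_zero
        have hg : Nat.gcd M D ≠ 0 := (Nat.gcd_pos_of_pos_left _ hM0).ne'
        have hne : tw M D ≠ 1 := fun h => by
          rw [tw_one hM0 hD1 h] at hDT
          exact hDT hM
        have key : (M : ℤ) * D = (tw M D : ℤ) * (Nat.gcd M D : ℤ) ^ 2 := by
          have := tw_spec (M := M) (D := D)
          exact_mod_cast this
        refine member (D := tw M D) (g := Nat.gcd M D) (tw_sqf hMF.1 hDF.1)
          (tw_fm hMF.1 hMF.2 hDF.1 hDF.2) hne (hDP M hM) hg _ _ _ ?_ ?_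
        · rw [← key]; unfold A; ring
        · rw [← key]; unfold B; ring
    have h3 := Set.ncard_le_ncard h2 ((GF.finite_DD X).subset fun d hd => hd.1)
    rw [Set.ncard_coe_finset, Finset.card_image_of_injective _ Nat.cast_injective] at h3
    exact h3
  have h4 := Finset.le_card_sdiff T (fam (fun D => ∀ M ∈ T, Crit (tw M D)) (GF.fl X))
  rw [num_eq]
  omega

lemma S_eq (X : ℝ) : S X = (GF.DD X).ncard := rfl

lemma le_S (T : Finset ℕ) (X : ℝ) : NT T X ≤ S X :=
  Set.ncard_le_ncard (fun _ hd => hd.1) (GF.finite_DD X)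

lemma S_atTop : Tendsto (fun X : ℝ => (S X : ℝ)) atTop atTop := by
  have h1 : Tendsto (fun X : ℝ => ((GF.DD X).ncard : ℝ) / X * X) atTop atTop :=
    GF.DD_lim.pos_mul_atTop (by positivity) tendsto_id
  refine h1.congr' ?_
  filter_upwards [eventually_gt_atTop 0] with X hX
  rw [div_mul_cancel₀ _ hX.ne', S_eq]

theorem main (T : Finset ℕ) (hT : ∀ M ∈ T, Family M) :
    5 / 192 * c ^ T.card ≤ liminf (fun X : ℝ => (NT T X : ℝ) / S X) atTop := by
  have h1 := ((law T hT).comp GF.fl_atTop).mul GF.fl_lim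
  rw [mul_one] at h1
  have hpi : (0 : ℝ) < 12 / Real.pi ^ 2 := by positivity
  have h2 := h1.div GF.DD_lim hpi.ne'
  have e : c ^ T.card * (5 / (16 * Real.pi ^ 2)) / (12 / Real.pi ^ 2) = 5 / 192 * c ^ T.card := by
    have : Real.pi ≠ 0 := Real.pi_ne_zero
    field_simp
    ring
  rw [e] at h2
  have h3 : Tendsto (fun X : ℝ => (T.card : ℝ) / S X) atTop (𝓝 0) :=
    tendsto_const_nhds.div_atTop S_atTop
  have h4 := h2.sub h3
  rw [sub_zero] at h4
  rw [← h4.liminf_eq]
  refine liminf_le_liminf ?_ h4.isBoundedUnder_ge ?_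
  · have h5 : ∀ᶠ X : ℝ in atTop, 0 < GF.fl X := GF.fl_atTop.eventually_gt_atTop 0
    filter_upwards [eventually_gt_atTop 0, h5, S_atTop.eventually_gt_atTop 0] with X hX h6 h7
    have h8 : (0 : ℝ) < (GF.fl X : ℝ) := by exact_mod_cast h6
    have h9 := count_le T hT hX
    have h9' : (DX.num (fun D => ∀ M ∈ T, Crit (tw M D)) (GF.fl X) : ℝ) ≤ NT T X + T.card := by
      exact_mod_cast h9
    simp only [Function.comp, Pi.div_apply]
    rw [← S_eq] at *
    have e2 : (DX.num (fun D => ∀ M ∈ T, Crit (tw M D)) (GF.fl X) : ℝ) / (GF.fl X : ℝ) *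
        ((GF.fl X : ℝ) / X) / ((S X : ℝ) / X) =
        (DX.num (fun D => ∀ M ∈ T, Crit (tw M D)) (GF.fl X) : ℝ) / S X := by
      field_simp
    rw [e2, ← sub_div]
    refine div_le_div_of_nonneg_right (by linarith) h7.le
  · refine Filter.isCoboundedUnder_ge_of_le atTop (x := 1) fun X => ?_
    exact div_le_one_of_le₀ (by exact_mod_cast le_S T X) (Nat.cast_nonneg _)

end proof

theorem result :
    (∀ T : Finset ℕ, (∀ M ∈ T, Family M) →
      5 / 192 * c ^ T.card ≤ liminf (fun X : ℝ => (NT T X : ℝ) / S X) atTop) ∧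
    (∀ M : ℕ, Family M →
      5 / 192 * c ≤ liminf (fun X : ℝ => (N (A M) (B M) 0 X : ℝ) / S X) atTop) ∧
    0.0075 < 5 / 192 * c := by
  refine ⟨main, fun M hM => ?_, ?_⟩
  · have h1 := main {M} (fun M' hM' => by rw [Finset.mem_singleton.1 hM']; exact hM)
    rw [Finset.card_singleton, pow_one] at h1
    refine h1.trans (liminf_le_liminf ?_ ?_ ?_)
    · filter_upwards with X
      refine div_le_div_of_nonneg_right ?_ (Nat.cast_nonneg _)
      have h2 : NT {M} X ≤ N (A M) (B M) 0 X := by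
        refine Set.ncard_le_ncard (fun d hd => ⟨hd.1, (hd.2 M (Finset.mem_singleton_self M)).1⟩)
          ((Pool.Agent.H468.X15.GF.finite_DD X).subset fun d hd => hd.1)
      exact_mod_cast h2
    · exact Filter.isBoundedUnder_of ⟨0, fun X => div_nonneg (Nat.cast_nonneg _) (Nat.cast_nonneg _)⟩
    · refine Filter.isCoboundedUnder_ge_of_le atTop (x := 1) fun X => ?_
      refine div_le_one_of_le₀ ?_ (Nat.cast_nonneg _)
      have h2 : N (A M) (B M) 0 X ≤ S X :=
        Set.ncard_le_ncard (fun _ hd => hd.1) (Pool.Agent.H468.X15.GF.finite_DD X)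
      exact_mod_cast h2
  · have h1 : 0.2887 < c := Pool.Agent.H468.X15.DX.c_bounds.1
    norm_num at h1 ⊢
    linarith

end Pool.Agent.Results.MP_03e5d0_nt.PositiveProportionX15
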